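import Mathlib
import Pool.Agent.H24.RM.Defs
import Pool.Agent.H24.RM.Low3
import Pool.Agent.H24.RM.Up4

/-!
# The polynomial removal threshold is not monotone (MP_155693_co, Q1)

`IsCopy`, `EdgeDisjoint`, `Removal`, `delta`, `polyThreshold`, `C53`, `M12` are defined in
`Pool.Agent.H24.RM.Defs`.
-/

set_option autoImplicit false

namespace Pool.Agent.Results.MP_155693_co.PolyNotMonotone

open Pool.Agent.H24.RM

/-- `M12` is a subgraph of `C53` -/
lemma sub_copy : IsCopy M12 C53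
    ![(0, 0), (1, 0), (2, 0), (3, 0), (4, 0), (0, 1), (1, 1), (2, 1), (3, 1), (4, 1), (0, 2),
      (1, 2)] := by
  constructor
  · decide
  · have h : ∀ a b : Fin 12, (b = a + 1 ∨ a = b + 1 ∨ b = a + 6) →
      ((![(0, 0), (1, 0), (2, 0), (3, 0), (4, 0), (0, 1), (1, 1), (2, 1), (3, 1), (4, 1), (0, 2),
        (1, 2)] : Fin 12 → Fin 5 × Fin 3) b).1 =
      ((![(0, 0), (1, 0), (2, 0), (3, 0), (4, 0), (0, 1), (1, 1), (2, 1), (3, 1), (4, 1), (0, 2),
        (1, 2)] : Fin 12 → Fin 5 × Fin 3) a).1 + 1 ∨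
      ((![(0, 0), (1, 0), (2, 0), (3, 0), (4, 0), (0, 1), (1, 1), (2, 1), (3, 1), (4, 1), (0, 2),
        (1, 2)] : Fin 12 → Fin 5 × Fin 3) a).1 =
      ((![(0, 0), (1, 0), (2, 0), (3, 0), (4, 0), (0, 1), (1, 1), (2, 1), (3, 1), (4, 1), (0, 2),
        (1, 2)] : Fin 12 → Fin 5 × Fin 3) b).1 + 1 := by decide
    exact fun a b hab => h a b hab

/-- Q1 of MP_155693_co is false: the Möbius ladder `M12` is a subgraph of the blow-up `C53` of the
5-cycle, and its polynomial removal threshold is larger. The first part says that `delta` is the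
largest `δ` in `[0, 1]` with the removal property. -/
theorem result :
    (∀ (W : Type) [Fintype W] (H : SimpleGraph W) (γ ε : ℝ),
      IsGreatest {δ : ℝ | 0 ≤ δ ∧ δ ≤ 1 ∧ Removal H γ ε δ} (delta H γ ε)) ∧
    (∃ e : Fin 12 → Fin 5 × Fin 3, IsCopy M12 C53 e) ∧
    polyThreshold C53 ≤ 6 / 25 ∧ 1 / 4 ≤ polyThreshold M12 ∧
    ¬ ∀ (W W' : Type) [Fintype W] [Fintype W'] (H : SimpleGraph W) (H' : SimpleGraph W'),
      (∃ e : W' → W, IsCopy H' H e) → polyThreshold H' ≤ polyThreshold H := by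
  refine ⟨?_, ⟨_, sub_copy⟩, up, low, ?_⟩
  · intro W _ H γ ε
    refine ⟨⟨le_delta H le_rfl zero_le_one (removal_zero H γ ε), ?_, removal_delta H γ ε⟩, ?_⟩
    · exact csSup_le (delta_nonempty H γ ε) fun _ h => h.2.1
    · exact fun _ h => le_csSup (delta_bdd H γ ε) h
  · intro h
    have h1 := h (Fin 5 × Fin 3) (Fin 12) C53 M12 ⟨_, sub_copy⟩
    have h2 := up
    have h3 := low
    linarith

end Pool.Agent.Results.MP_155693_co.PolyNotMonotone
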